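import Pool.Agent.helper35.SZ.CurlDefs

/-!
# SZ-M10: the splitting map from the homotopy
-/

namespace Pool.Agent.helper35.SZ
open scoped Classical
open Finset
noncomputable section

namespace M10

/-- The map given by a matrix `n`. -/
def nuMap {D : Diagram} (n : D.Gen → D.Gen → ZMod 2) : Chain D →ₗ[ZMod 2] Chain D where
  toFun v g' := ∑ g, v g * n g g'
  map_add' v w := by
    funext g'
    simp only [Pi.add_apply, add_mul, Finset.sum_add_distrib]
  map_smul' c v := by
    funext g'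
    simp only [Pi.smul_apply, smul_eq_mul, mul_assoc, Finset.mul_sum, RingHom.id_apply]

theorem nuMap_apply {D : Diagram} (n : D.Gen → D.Gen → ZMod 2) (v : Chain D) (g' : D.Gen) :
    nuMap n v g' = ∑ g, v g * n g g' := rfl

theorem zmod2_add_self (a : ZMod 2) : a + a = 0 := by
  fin_cases a <;> rfl

theorem zmod2_eq_of_add (a b : ZMod 2) (h : a + b = 0) : a = b := by
  have hb := zmod2_add_self b
  calc a = a + (b + b) := by rw [hb, add_zero]
    _ = (a + b) + b := by ring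
    _ = b := by rw [h, zero_add]

theorem comm (cv : Conv) (D : Diagram) (t : D.X → Bool)
    (n : D.Gen → D.Gen → ZMod 2)
    (h4 : ∀ g g'', ∑ g', (coef cv D t g g' * n g' g'' + n g g' * coef cv D t g' g'') = 0) :
    diff cv D t ∘ₗ nuMap n = nuMap n ∘ₗ diff cv D t := by
  apply LinearMap.ext
  intro v
  funext g''
  change ∑ g', (∑ g, v g * n g g') * coef cv D t g' g'' =
    ∑ g', (∑ g, v g * coef cv D t g g') * n g' g''
  apply zmod2_eq_of_add
  simp only [Finset.sum_mul]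
  rw [Finset.sum_comm, Finset.sum_comm (s := univ) (t := univ)
    (f := fun g' g => v g * coef cv D t g g' * n g' g''), ← Finset.sum_add_distrib]
  apply Finset.sum_eq_zero
  intro g _
  rw [← Finset.sum_add_distrib]
  have := h4 g g''
  calc ∑ g', (v g * n g g' * coef cv D t g' g'' + v g * coef cv D t g g' * n g' g'')
      = v g * ∑ g', (coef cv D t g g' * n g' g'' + n g g' * coef cv D t g' g'') := by
        rw [Finset.mul_sum]
        apply Finset.sum_congr rfl
        intro g' _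
        ring
    _ = 0 := by rw [this, mul_zero]

theorem nu_fil {D : Diagram} (o : Orientation D) (n : D.Gen → D.Gen → ZMod 2)
    (h1 : ∀ g g', n g g' ≠ 0 → g.1 ⊆ g'.1)
    (h2 : ∀ g g', n g g' ≠ 0 → dg D g' = dg D g + 2) (p s : ℤ) (v : Chain D)
    (hv : v ∈ o.Fil p s) : nuMap n v ∈ o.Fil p (s + 2) := by
  intro g' hg'
  obtain ⟨g, -, hg⟩ := Finset.exists_ne_zero_of_sum_ne_zero hg'
  have e1 : v g ≠ 0 := left_ne_zero_of_mul hg
  have e2 : n g g' ≠ 0 := right_ne_zero_of_mul hg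
  obtain ⟨ha, hb⟩ := hv g e1
  have hle : (g.1.card : ℤ) ≤ g'.1.card := by exact_mod_cast Finset.card_le_card (h1 g g' e2)
  have hd := h2 g g' e2
  constructor
  · simp only [Orientation.hDeg] at ha ⊢
    omega
  · simp only [Orientation.hDeg, Orientation.qDeg, dg] at hb hd ⊢
    omega

theorem diag {D : Diagram} (P : D.H) (n : D.Gen → D.Gen → ZMod 2)
    (h1 : ∀ g g', n g g' ≠ 0 → g.1 ⊆ g'.1)
    (h3 : ∀ A (m m' : Finset (D.Circ A)), n ⟨A, m⟩ ⟨A, m'⟩ =
      ∑ c, if c ∈ m ∧ m' = m.erase c then (1 : ZMod 2) else 0)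
    (b : Chain D) (hb : b ∈ Reduced D P) (k : ℕ) (hk : ∀ g, b g ≠ 0 → k ≤ g.1.card)
    (A : Finset D.X) (m : Finset (D.Circ A)) (hA : A.card ≤ k) (hm : D.circ A P ∉ m) :
    nuMap n b ⟨A, m⟩ = b ⟨A, insert (D.circ A P) m⟩ := by
  rw [nuMap_apply, Finset.sum_eq_single (⟨A, insert (D.circ A P) m⟩ : D.Gen)]
  · have e : n ⟨A, insert (D.circ A P) m⟩ ⟨A, m⟩ = 1 := by
      rw [h3, Finset.sum_eq_single (D.circ A P)]
      · rw [if_pos]
        exact ⟨mem_insert_self _ _, (erase_insert hm).symm⟩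
      · intro c _ hc
        rw [if_neg]
        rintro ⟨-, h⟩
        apply hm
        rw [h]
        exact mem_erase.mpr ⟨hc.symm, mem_insert_self _ _⟩
      · intro h
        exact absurd (mem_univ _) h
    rw [e, mul_one]
  · rintro ⟨A', m'⟩ _ hne
    by_contra hcon
    have e1 : b ⟨A', m'⟩ ≠ 0 := left_ne_zero_of_mul hcon
    have e2 : n ⟨A', m'⟩ ⟨A, m⟩ ≠ 0 := right_ne_zero_of_mul hcon
    have hsub : A' ⊆ A := h1 _ _ e2
    have hcard : k ≤ A'.card := hk _ e1
    have hAA : A' = A := Finset.eq_of_subset_of_card_le hsub (hA.trans hcard)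
    subst hAA
    have hP : D.circ A' P ∈ m' := hb _ e1
    rw [h3] at e2
    obtain ⟨c, -, hc⟩ := Finset.exists_ne_zero_of_sum_ne_zero e2
    have hc' : c ∈ m' ∧ m = m'.erase c := by
      by_contra h
      exact hc (if_neg h)
    have hcP : c = D.circ A' P := by
      by_contra h
      apply hm
      rw [hc'.2]
      exact mem_erase.mpr ⟨fun e => h e.symm, hP⟩
    apply hne
    rw [hc'.2, hcP, insert_erase hP]
  · intro h
    exact absurd (mem_univ _) h

theorem inj {D : Diagram} (P : D.H) (n : D.Gen → D.Gen → ZMod 2)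
    (h1 : ∀ g g', n g g' ≠ 0 → g.1 ⊆ g'.1)
    (h3 : ∀ A (m m' : Finset (D.Circ A)), n ⟨A, m⟩ ⟨A, m'⟩ =
      ∑ c, if c ∈ m ∧ m' = m.erase c then (1 : ZMod 2) else 0)
    (a : Chain D) (ha : a ∈ Reduced D P) (b : Chain D) (hb : b ∈ Reduced D P)
    (hab : a + nuMap n b = 0) : a = 0 ∧ b = 0 := by
  have key : ∀ k : ℕ, ∀ g, b g ≠ 0 → k ≤ g.1.card := by
    intro k
    induction k with
    | zero =>
      intro g _
      exact Nat.zero_le _
    | succ k ih =>
      rintro ⟨A, m⟩ hg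
      by_contra hlt
      have hlt' : A.card ≤ k := by
        simp only at hlt
        omega
      have hP : D.circ A P ∈ m := hb _ hg
      have hnot : D.circ A P ∉ m.erase (D.circ A P) := by simp
      have e := diag P n h1 h3 b hb k ih A (m.erase (D.circ A P)) hlt' hnot
      rw [insert_erase hP] at e
      have ea : a ⟨A, m.erase (D.circ A P)⟩ = 0 := by
        by_contra h
        exact hnot (ha _ h)
      have e0 := congrFun hab ⟨A, m.erase (D.circ A P)⟩
      rw [Pi.add_apply, ea, zero_add, e] at e0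
      exact hg e0
  have hb0 : b = 0 := by
    funext g
    by_contra h
    have := key (g.1.card + 1) g h
    omega
  refine ⟨?_, hb0⟩
  rw [hb0, map_zero, add_zero] at hab
  exact hab

theorem dec {D : Diagram} (o : Orientation D) (P : D.H) (n : D.Gen → D.Gen → ZMod 2)
    (h1 : ∀ g g', n g g' ≠ 0 → g.1 ⊆ g'.1)
    (h2 : ∀ g g', n g g' ≠ 0 → dg D g' = dg D g + 2)
    (h3 : ∀ A (m m' : Finset (D.Circ A)), n ⟨A, m⟩ ⟨A, m'⟩ =
      ∑ c, if c ∈ m ∧ m' = m.erase c then (1 : ZMod 2) else 0)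
    (p s : ℤ) (v : Chain D) (hv : v ∈ o.Fil p s) (k : ℕ) :
    ∃ b ∈ o.Fil p (s - 2) ⊓ Reduced D P, ∀ g : D.Gen, g.1.card < k → D.circ g.1 P ∉ g.2 →
      v g = nuMap n b g := by
  induction k with
  | zero =>
    exact ⟨0, Submodule.zero_mem _, fun g hg => absurd hg (Nat.not_lt_zero _)⟩
  | succ k ih =>
    obtain ⟨b, hb, hbk⟩ := ih
    set w : Chain D := v - nuMap n b with hw
    have hwF : w ∈ o.Fil p s := by
      apply Submodule.sub_mem _ hv
      have := nu_fil o n h1 h2 p (s - 2) b hb.1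
      rwa [sub_add_cancel] at this
    let b' : Chain D := fun g => if g.1.card = k ∧ D.circ g.1 P ∈ g.2 then
      w ⟨g.1, g.2.erase (D.circ g.1 P)⟩ else 0
    have hb'R : b' ∈ Reduced D P := by
      intro g hg
      by_contra h
      apply hg
      exact if_neg (fun e => h e.2)
    have hb'F : b' ∈ o.Fil p (s - 2) := by
      intro g hg
      have hc : g.1.card = k ∧ D.circ g.1 P ∈ g.2 := by
        by_contra h
        exact hg (if_neg h)
      have hw' : w ⟨g.1, g.2.erase (D.circ g.1 P)⟩ ≠ 0 := by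
        intro e
        apply hg
        change (if g.1.card = k ∧ D.circ g.1 P ∈ g.2 then
          w ⟨g.1, g.2.erase (D.circ g.1 P)⟩ else 0) = 0
        rw [e, ite_self]
      obtain ⟨e1, e2⟩ := hwF _ hw'
      have hcard : ((g.2.erase (D.circ g.1 P)).card : ℤ) = g.2.card - 1 := by
        rw [Finset.card_erase_of_mem hc.2, Nat.cast_sub
          (Finset.card_pos.mpr ⟨_, hc.2⟩), Nat.cast_one]
      constructor
      · simpa only [Orientation.hDeg] using e1
      · simp only [Orientation.hDeg, Orientation.qDeg, Diagram.gr] at e2 ⊢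
        rw [hcard] at e2
        omega
    have hb'k : ∀ g, b' g ≠ 0 → k ≤ g.1.card := by
      intro g hg
      have hc : g.1.card = k ∧ D.circ g.1 P ∈ g.2 := by
        by_contra h
        exact hg (if_neg h)
      omega
    refine ⟨b + b', Submodule.add_mem _ hb ⟨hb'F, hb'R⟩, ?_⟩
    rintro ⟨A, m⟩ hA hm
    have hA' : A.card ≤ k := by
      simp only at hA
      omega
    rw [map_add, Pi.add_apply, diag P n h1 h3 b' hb'R k hb'k A m hA' hm]
    change v ⟨A, m⟩ = nuMap n b ⟨A, m⟩ +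
      (if A.card = k ∧ D.circ A P ∈ insert (D.circ A P) m then
        w ⟨A, (insert (D.circ A P) m).erase (D.circ A P)⟩ else 0)
    by_cases hk : A.card = k
    · rw [if_pos ⟨hk, mem_insert_self _ _⟩, erase_insert hm, hw, Pi.sub_apply]
      ring
    · rw [if_neg (fun e => hk e.1), add_zero]
      exact hbk ⟨A, m⟩ (lt_of_le_of_ne hA' hk) hm

end M10

theorem M10_split (cv : Conv) (D : Diagram) (t : D.X → Bool) (o : Orientation D) (P : D.H)
    (n : D.Gen → D.Gen → ZMod 2)
    (h1 : ∀ g g', n g g' ≠ 0 → g.1 ⊆ g'.1)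
    (h2 : ∀ g g', n g g' ≠ 0 → dg D g' = dg D g + 2)
    (h3 : ∀ A (m m' : Finset (D.Circ A)), n ⟨A, m⟩ ⟨A, m'⟩ =
      ∑ c, if c ∈ m ∧ m' = m.erase c then (1 : ZMod 2) else 0)
    (h4 : ∀ g g'', ∑ g', (coef cv D t g g' * n g' g'' + n g g' * coef cv D t g' g'') = 0) :
    ∃ nu : Chain D →ₗ[ZMod 2] Chain D, diff cv D t ∘ₗ nu = nu ∘ₗ diff cv D t ∧
      (∀ p s, ∀ v ∈ o.Fil p s, nu v ∈ o.Fil p (s + 2)) ∧
      (∀ p s, ∀ v ∈ o.Fil p s, ∃ a ∈ o.Fil p s ⊓ Reduced D P, ∃ b ∈ o.Fil p (s - 2) ⊓ Reduced D P,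
        v = a + nu b) ∧
      (∀ a ∈ Reduced D P, ∀ b ∈ Reduced D P, a + nu b = 0 → a = 0 ∧ b = 0) := by
  refine ⟨M10.nuMap n, M10.comm cv D t n h4, M10.nu_fil o n h1 h2, ?_, M10.inj P n h1 h3⟩
  intro p s v hv
  obtain ⟨b, hb, hbk⟩ := M10.dec o P n h1 h2 h3 p s v hv (Fintype.card D.X + 1)
  refine ⟨v - M10.nuMap n b, ⟨?_, ?_⟩, b, hb, by abel⟩
  · apply Submodule.sub_mem _ hv
    have := M10.nu_fil o n h1 h2 p (s - 2) b hb.1
    rwa [sub_add_cancel] at this
  · intro g hg
    by_contra h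
    apply hg
    rw [Pi.sub_apply, hbk g (Nat.lt_succ_of_le (Finset.card_le_univ _)) h, sub_self]

end
end Pool.Agent.helper35.SZ
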