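import Pool.Agent.helper20.Sz.Sys
import Pool.Agent.helper60.Sz.P1

/-! # Module SZ-P2: the cube of a checkerboard coloured diagram, surgeries and telescoping -/

open scoped symmDiff

namespace Pool.Agent.helper20.Sz
namespace P2

/-- the port of a crossing connected with a given one by the smoothing -/
def smi (b : Bool) : Fin 4 → Fin 4 := if b then ![3, 2, 1, 0] else ![1, 0, 3, 2]

theorem smi_smi (b : Bool) (a : Fin 4) : smi b (smi b a) = a := by
  revert a; cases b <;> decide

theorem smi_flip (b : Bool) (a : Fin 4) : smi (!b) (a + 2) = smi b a := by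
  revert a; cases b <;> decide

section
variable (D : LinkDiagram)

def sm (v : Finset (Fin D.n)) (x : Fin D.n × Fin 4) : Fin D.n × Fin 4 :=
  (x.1, smi (decide (x.1 ∈ v)) x.2)

theorem sm_sm (v : Finset (Fin D.n)) (x : Fin D.n × Fin 4) : sm D v (sm D v x) = x := by
  exact Prod.ext rfl (smi_smi _ _)

theorem q_sm (v : Finset (Fin D.n)) (x : Fin D.n × Fin 4) :
    (Quot.mk (D.Step v) (Sum.inl x) : Quot (D.Step v)) = Quot.mk (D.Step v) (Sum.inl (sm D v x)) := by
  obtain ⟨i, a⟩ := x
  by_cases h : i ∈ v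
  · have e : ∀ a : Fin 4, sm D v (i, a) = (i, smi true a) := fun a => by simp [sm, h]
    rw [e]
    fin_cases a
    · exact (Quot.sound (LinkDiagram.Step.one30 i h)).symm
    · exact Quot.sound (LinkDiagram.Step.one12 i h)
    · exact (Quot.sound (LinkDiagram.Step.one12 i h)).symm
    · exact Quot.sound (LinkDiagram.Step.one30 i h)
  · have e : ∀ a : Fin 4, sm D v (i, a) = (i, smi false a) := fun a => by simp [sm, h]
    rw [e]
    fin_cases a
    · exact Quot.sound (LinkDiagram.Step.zero01 i h)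
    · exact (Quot.sound (LinkDiagram.Step.zero01 i h)).symm
    · exact Quot.sound (LinkDiagram.Step.zero23 i h)
    · exact (Quot.sound (LinkDiagram.Step.zero23 i h)).symm

theorem q_mate (v : Finset (Fin D.n)) (x : Fin D.n × Fin 4) :
    (Quot.mk (D.Step v) (Sum.inl x) : Quot (D.Step v)) =
      Quot.mk (D.Step v) (Sum.inl (D.mate x)) :=
  Quot.sound (LinkDiagram.Step.edge x)

variable {D} {o : Fin D.n × Fin 4 → Bool} (ho : D.Checker o)

include ho in
theorem o_smi (i : Fin D.n) (b : Bool) (a : Fin 4) : o (i, smi b a) = !o (i, a) := by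
  have h0 := ho.1 i 0
  have h1 := ho.1 i 1
  have h2 := ho.1 i 2
  have h3 := ho.1 i 3
  have e0 : (0 : Fin 4) + 1 = 1 := rfl
  have e1 : (1 : Fin 4) + 1 = 2 := rfl
  have e2 : (2 : Fin 4) + 1 = 3 := rfl
  have e3 : (3 : Fin 4) + 1 = 0 := rfl
  rw [e0] at h0
  rw [e1] at h1
  rw [e2] at h2
  rw [e3] at h3
  cases b
  · fin_cases a
    · exact h0
    · change o (i, 0) = !o (i, 1)
      rw [h0, Bool.not_not]
    · exact h2
    · change o (i, 2) = !o (i, 3)
      rw [h2, Bool.not_not]
  · fin_cases a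
    · change o (i, 3) = !o (i, 0)
      rw [h3, Bool.not_not]
    · exact h1
    · change o (i, 1) = !o (i, 2)
      rw [h1, Bool.not_not]
    · exact h3

include ho in
theorem o_sm (v : Finset (Fin D.n)) (x : Fin D.n × Fin 4) : o (sm D v x) = !o x :=
  o_smi ho _ _ _

/-- the next port along the circle -/
def nxt (v : Finset (Fin D.n)) : Equiv.Perm D.Point where
  toFun := Sum.elim (fun x => Sum.inl (if o x then D.mate x else sm D v x)) Sum.inr
  invFun := Sum.elim (fun x => Sum.inl (if o x then sm D v x else D.mate x)) Sum.inr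
  left_inv := by
    rintro (x | j)
    · simp only [Sum.elim_inl]
      by_cases h : o x = true
      · rw [if_pos h, if_neg (by rw [ho.2, h]; decide), D.mate_mate]
      · rw [if_neg h, if_pos (by rw [o_sm ho]; simpa using h), sm_sm]
    · rfl
  right_inv := by
    rintro (x | j)
    · simp only [Sum.elim_inl]
      by_cases h : o x = true
      · rw [if_pos h, if_neg (by rw [o_sm ho, h]; decide), sm_sm]
      · rw [if_neg h, if_pos (by rw [ho.2]; simpa using h), D.mate_mate]
    · rfl

theorem nxt_inl (v : Finset (Fin D.n)) (x : Fin D.n × Fin 4) :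
    nxt ho v (Sum.inl x) = Sum.inl (if o x then D.mate x else sm D v x) := rfl

theorem nxt_inr (v : Finset (Fin D.n)) (j : Fin D.m) :
    nxt ho v (Sum.inr j) = Sum.inr j := rfl

theorem q_nxt (v : Finset (Fin D.n)) (x : D.Point) :
    (Quot.mk (D.Step v) (nxt ho v x) : Quot (D.Step v)) = Quot.mk (D.Step v) x := by
  rcases x with x | j
  · rw [nxt_inl]
    split_ifs
    · exact (q_mate D v x).symm
    · exact (q_sm D v x).symm
  · rfl

theorem sameCycle_map {α β : Type} (σ : Equiv.Perm α) (g : α → β) (hg : ∀ x, g (σ x) = g x)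
    {x y : α} (h : σ.SameCycle x y) : g x = g y := by
  obtain ⟨k, rfl⟩ := h
  induction k using Int.induction_on with
  | zero => simp
  | succ n ih =>
    rw [add_comm, zpow_add, zpow_one, Equiv.Perm.mul_apply, hg]
    exact ih
  | pred n ih =>
    rw [ih, ← hg ((σ ^ (-(n : ℤ) - 1)) x), ← Equiv.Perm.mul_apply]
    congr 2
    rw [← zpow_one_add]
    congr 1
    ring

theorem same_iff (v : Finset (Fin D.n)) (x y : D.Point) :
    (Quot.mk (D.Step v) x : Quot (D.Step v)) = Quot.mk (D.Step v) y ↔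
      (nxt ho v).SameCycle x y := by
  constructor
  · intro h0
    have h := Quot.eqvGen_exact h0
    clear h0
    have key : ∀ z : Fin D.n × Fin 4,
        (nxt ho v).SameCycle (Sum.inl z) (Sum.inl (sm D v z)) := by
      intro z
      by_cases hz : o z = true
      · have e : nxt ho v (Sum.inl (sm D v z)) = Sum.inl z := by
          rw [nxt_inl, if_neg (by rw [o_sm ho, hz]; decide), sm_sm]
        exact (Equiv.Perm.SameCycle.symm ⟨1, by rw [zpow_one, e]⟩)
      · have e : nxt ho v (Sum.inl z) = Sum.inl (sm D v z) := by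
          rw [nxt_inl, if_neg hz]
        exact ⟨1, by rw [zpow_one, e]⟩
    induction h with
    | rel x y h =>
      cases h with
      | edge x =>
        by_cases hx : o x = true
        · exact ⟨1, by rw [zpow_one, nxt_inl, if_pos hx]⟩
        · refine Equiv.Perm.SameCycle.symm ⟨1, ?_⟩
          rw [zpow_one, nxt_inl, if_pos (by rw [ho.2]; simpa using hx), D.mate_mate]
      | zero01 i h =>
        have := key (i, 0)
        have e : sm D v (i, 0) = (i, 1) := by simp [sm, h, smi]
        rwa [e] at this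
      | zero23 i h =>
        have := key (i, 2)
        have e : sm D v (i, 2) = (i, 3) := by simp [sm, h, smi]
        rwa [e] at this
      | one12 i h =>
        have := key (i, 1)
        have e : sm D v (i, 1) = (i, 2) := by simp [sm, h, smi]
        rwa [e] at this
      | one30 i h =>
        have := key (i, 3)
        have e : sm D v (i, 3) = (i, 0) := by simp [sm, h, smi]
        rwa [e] at this
    | refl x => exact Equiv.Perm.SameCycle.refl _ _
    | symm x y _ ih => exact ih.symm
    | trans x y z _ _ ih1 ih2 => exact ih1.trans ih2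
  · intro h
    exact sameCycle_map (nxt ho v) (fun x => (Quot.mk (D.Step v) x : Quot (D.Step v)))
      (q_nxt ho v) h

/-- the two in-ports of a crossing -/
def pa (o : Fin D.n × Fin 4 → Bool) (c : Fin D.n) : Fin D.n × Fin 4 :=
  (c, if o (c, 0) then 1 else 0)

def pb (o : Fin D.n × Fin 4 → Bool) (c : Fin D.n) : Fin D.n × Fin 4 :=
  (c, if o (c, 0) then 3 else 2)

include ho in
theorem o_vals (c : Fin D.n) : o (c, 1) = !o (c, 0) ∧ o (c, 2) = o (c, 0) ∧
    o (c, 3) = !o (c, 0) := by
  have h0 := ho.1 c 0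
  have h1 := ho.1 c 1
  have h2 := ho.1 c 2
  have e0 : (0 : Fin 4) + 1 = 1 := rfl
  have e1 : (1 : Fin 4) + 1 = 2 := rfl
  have e2 : (2 : Fin 4) + 1 = 3 := rfl
  rw [e0] at h0
  rw [e1] at h1
  rw [e2] at h2
  refine ⟨h0, ?_, ?_⟩
  · rw [h1, h0, Bool.not_not]
  · rw [h2, h1, h0, Bool.not_not]

include ho in
theorem in_port (c : Fin D.n) (a : Fin 4) (h : o (c, a) = false) :
    (c, a) = pa o c ∨ (c, a) = pb o c := by
  obtain ⟨h1, h2, h3⟩ := o_vals ho c
  unfold pa pb
  cases h0 : o (c, 0)
  · fin_cases a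
    · left; simp
    · exfalso
      change o (c, 1) = false at h
      rw [h1, h0] at h
      exact absurd h (by decide)
    · right; simp
    · exfalso
      change o (c, 3) = false at h
      rw [h3, h0] at h
      exact absurd h (by decide)
  · fin_cases a
    · exfalso
      change o (c, 0) = false at h
      rw [h0] at h
      exact absurd h (by decide)
    · left; simp
    · exfalso
      change o (c, 2) = false at h
      rw [h2, h0] at h
      exact absurd h (by decide)
    · right; simp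

include ho in
theorem o_pa (c : Fin D.n) : o (pa o c) = false := by
  obtain ⟨h1, h2, h3⟩ := o_vals ho c
  unfold pa
  cases h0 : o (c, 0)
  · simp [h0]
  · simp [h1, h0]

include ho in
theorem o_pb (c : Fin D.n) : o (pb o c) = false := by
  obtain ⟨h1, h2, h3⟩ := o_vals ho c
  unfold pb
  cases h0 : o (c, 0)
  · simp [h0, h2]
  · simp [h3, h0]

omit ho in
theorem pa_ne_pb (c : Fin D.n) : pa o c ≠ pb o c := by
  unfold pa pb
  cases h0 : o (c, 0) <;> simp

/-- flipping a crossing interchanges the images of its in-ports -/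
theorem sm_flip (v w : Finset (Fin D.n)) (c : Fin D.n) (h : c ∈ w ↔ c ∉ v) :
    sm D w (pa o c) = sm D v (pb o c) ∧ sm D w (pb o c) = sm D v (pa o c) := by
  have e : decide (c ∈ w) = !decide (c ∈ v) := by
    by_cases hv : c ∈ v <;> simp [h, hv]
  unfold sm pa pb
  simp only [e]
  constructor
  · rw [← smi_flip (decide (c ∈ v))]
    cases h0 : o (c, 0)
    · rfl
    · rfl
  · rw [← smi_flip (decide (c ∈ v))]
    cases h0 : o (c, 0)
    · rfl
    · rfl

theorem nxt_flip (v : Finset (Fin D.n)) (c : Fin D.n) :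
    nxt ho (v ∆ {c}) = nxt ho v * Equiv.swap (Sum.inl (pa o c)) (Sum.inl (pb o c)) := by
  have hc : c ∈ v ∆ {c} ↔ c ∉ v := by
    rw [Finset.mem_symmDiff]
    simp
  ext x
  rw [Equiv.Perm.mul_apply]
  by_cases h1 : x = Sum.inl (pa o c)
  · subst h1
    rw [Equiv.swap_apply_left, nxt_inl, nxt_inl, if_neg (by rw [o_pa ho]; decide),
      if_neg (by rw [o_pb ho]; decide), (sm_flip v (v ∆ {c}) c hc).1]
  · by_cases h2 : x = Sum.inl (pb o c)
    · subst h2
      rw [Equiv.swap_apply_right, nxt_inl, nxt_inl, if_neg (by rw [o_pb ho]; decide),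
        if_neg (by rw [o_pa ho]; decide), (sm_flip v (v ∆ {c}) c hc).2]
    · rw [Equiv.swap_apply_of_ne_of_ne h1 h2]
      rcases x with ⟨i, a⟩ | j
      · rw [nxt_inl, nxt_inl]
        by_cases hx : o (i, a) = true
        · rw [if_pos hx, if_pos hx]
        · rw [if_neg hx, if_neg hx]
          by_cases hi : i = c
          · exfalso
            subst hi
            rcases in_port ho i a (by simpa using hx) with h | h
            · exact h1 (by rw [h])
            · exact h2 (by rw [h])
          · have : (i ∈ v ∆ {c}) ↔ i ∈ v := by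
              rw [Finset.mem_symmDiff]
              simp [hi]
            have e : decide (i ∈ v ∆ {c}) = decide (i ∈ v) := by simp only [this]
            unfold sm
            simp only [e]
      · rfl

end

section
variable (D : LinkDiagram) (o : Fin D.n × Fin 4 → Bool) (t : Fin D.n → Bool) (rot : Bool)

/-- the ends of the arc and the in-ports -/
theorem ends (c : Fin D.n) :
    ((D.eta o rot c = true ∧
      (((D.cube t rot).tail c = Sum.inl (pa o c) ∧ (D.cube t rot).head c = Sum.inl (pb o c)) ∨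
      ((D.cube t rot).tail c = Sum.inl (pb o c) ∧ (D.cube t rot).head c = Sum.inl (pa o c)))) ∨
    (D.eta o rot c = false ∧ ∀ v : Finset (Fin D.n),
      (((D.cube t rot).tail c = Sum.inl (sm D v (pa o c)) ∧
        (D.cube t rot).head c = Sum.inl (sm D v (pb o c))) ∨
      ((D.cube t rot).tail c = Sum.inl (sm D v (pb o c)) ∧
        (D.cube t rot).head c = Sum.inl (sm D v (pa o c)))))) := by
  unfold LinkDiagram.eta LinkDiagram.cube pa pb sm
  cases rot <;> cases h0 : o (c, 0) <;> cases ht : t c <;> simp [ht]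
  all_goals
    intro v
    by_cases hv : c ∈ v <;> simp [smi, hv]

/-- the ends of the arc lie on the circles of the in-ports -/
theorem near (c : Fin D.n) (v : Finset (Fin D.n)) :
    ((D.cube t rot).same v ((D.cube t rot).tail c) (Sum.inl (pa o c)) ∧
      (D.cube t rot).same v ((D.cube t rot).head c) (Sum.inl (pb o c))) ∨
    ((D.cube t rot).same v ((D.cube t rot).tail c) (Sum.inl (pb o c)) ∧
      (D.cube t rot).same v ((D.cube t rot).head c) (Sum.inl (pa o c))) := by
  have hq : ∀ x, (D.cube t rot).same v (Sum.inl (sm D v x)) (Sum.inl x) := fun x =>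
    (q_sm D v x).symm
  rcases ends D o t rot c with ⟨_, ⟨h1, h2⟩ | ⟨h1, h2⟩⟩ | ⟨_, h⟩
  · left
    rw [h1, h2]
    exact ⟨rfl, rfl⟩
  · right
    rw [h1, h2]
    exact ⟨rfl, rfl⟩
  · rcases h v with ⟨h1, h2⟩ | ⟨h1, h2⟩
    · left
      rw [h1, h2]
      exact ⟨hq _, hq _⟩
    · right
      rw [h1, h2]
      exact ⟨hq _, hq _⟩

end

section
variable {D : LinkDiagram} {o : Fin D.n × Fin 4 → Bool} (ho : D.Checker o)
  (v : Finset (Fin D.n)) (c : Fin D.n)

include ho in
theorem core_split
    (h : (Quot.mk (D.Step v) (Sum.inl (pa o c)) : Quot (D.Step v)) =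
      Quot.mk (D.Step v) (Sum.inl (pb o c))) :
    ¬ (Quot.mk (D.Step (v ∆ {c})) (Sum.inl (pa o c)) : Quot (D.Step (v ∆ {c}))) =
      Quot.mk (D.Step (v ∆ {c})) (Sum.inl (pb o c)) := by
  rw [same_iff ho, nxt_flip ho]
  rw [same_iff ho] at h
  exact P1.swap_split _ (fun e => pa_ne_pb c (Sum.inl_injective e)) h

include ho in
theorem core_merge
    (h : ¬ (Quot.mk (D.Step v) (Sum.inl (pa o c)) : Quot (D.Step v)) =
      Quot.mk (D.Step v) (Sum.inl (pb o c))) (x y : D.Point) :
    (Quot.mk (D.Step (v ∆ {c})) x : Quot (D.Step (v ∆ {c}))) =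
      Quot.mk (D.Step (v ∆ {c})) y ↔
    (Quot.mk (D.Step v) x : Quot (D.Step v)) = Quot.mk (D.Step v) y ∨
      ((Quot.mk (D.Step v) x : Quot (D.Step v)) = Quot.mk (D.Step v) (Sum.inl (pa o c)) ∧
        (Quot.mk (D.Step v) (Sum.inl (pb o c)) : Quot (D.Step v)) = Quot.mk (D.Step v) y) ∨
      ((Quot.mk (D.Step v) x : Quot (D.Step v)) = Quot.mk (D.Step v) (Sum.inl (pb o c)) ∧
        (Quot.mk (D.Step v) (Sum.inl (pa o c)) : Quot (D.Step v)) = Quot.mk (D.Step v) y) := by
  rw [same_iff ho, nxt_flip ho]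
  simp only [same_iff ho] at h ⊢
  exact P1.swap_merge _ h x y

end

section
variable {D : LinkDiagram} {o : Fin D.n × Fin 4 → Bool} (ho : D.Checker o)
  (v G : Finset (Fin D.n)) (f : D.Point → ℤ)
  (hf : ∀ x y, (Quot.mk (D.Step (v ∆ G)) x : Quot (D.Step (v ∆ G))) =
    Quot.mk (D.Step (v ∆ G)) y → f x = f y)

theorem mem_flip {c : Fin D.n} (hc : c ∈ G) : c ∈ v ∆ G ↔ c ∉ v := by
  rw [Finset.mem_symmDiff]
  simp [hc]

include hf in
theorem f_mate (x : Fin D.n × Fin 4) : f (Sum.inl (D.mate x)) = f (Sum.inl x) :=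
  hf _ _ (q_mate D (v ∆ G) x).symm

include hf in
theorem f_pa {c : Fin D.n} (hc : c ∈ G) :
    f (Sum.inl (sm D v (pa o c))) = f (Sum.inl (pb o c)) := by
  rw [← (sm_flip (o := o) v (v ∆ G) c (mem_flip v G hc)).2]
  exact hf _ _ (q_sm D (v ∆ G) _).symm

include hf in
theorem f_pb {c : Fin D.n} (hc : c ∈ G) :
    f (Sum.inl (sm D v (pb o c))) = f (Sum.inl (pa o c)) := by
  rw [← (sm_flip (o := o) v (v ∆ G) c (mem_flip v G hc)).1]
  exact hf _ _ (q_sm D (v ∆ G) _).symm

include hf in
theorem f_notin {c : Fin D.n} (hc : c ∉ G) (a : Fin 4) :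
    f (Sum.inl (sm D v (c, a))) = f (Sum.inl (c, a)) := by
  have h1 : c ∈ v ∆ G ↔ c ∈ v := by
    rw [Finset.mem_symmDiff]
    simp [hc]
  have h2 : sm D v (c, a) = sm D (v ∆ G) (c, a) := by
    unfold sm
    simp only [h1]
  rw [h2]
  exact hf _ _ (q_sm D (v ∆ G) _).symm

include ho hf in
open Classical in
theorem tele_core (z : D.Point) :
    ∑ c ∈ G, (f (Sum.inl (pb o c)) - f (Sum.inl (pa o c))) *
      ((if (Quot.mk (D.Step v) (Sum.inl (pa o c)) : Quot (D.Step v)) = Quot.mk (D.Step v) z
        then (1 : ℤ) else 0) -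
      (if (Quot.mk (D.Step v) (Sum.inl (pb o c)) : Quot (D.Step v)) = Quot.mk (D.Step v) z
        then (1 : ℤ) else 0)) = 0 := by
  set I : D.Point → ℤ := fun x =>
    if (Quot.mk (D.Step v) x : Quot (D.Step v)) = Quot.mk (D.Step v) z then 1 else 0 with hI
  have hInxt : ∀ x, I (nxt ho v x) = I x := by
    intro x
    simp only [hI, q_nxt ho v x]
  have h0 : ∑ x : D.Point, I x * (f (nxt ho v x) - f x) = 0 := by
    have h1 : ∑ x : D.Point, I (nxt ho v x) * f (nxt ho v x) = ∑ x : D.Point, I x * f x :=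
      Equiv.sum_comp (nxt ho v) (fun x => I x * f x)
    simp only [mul_sub, Finset.sum_sub_distrib]
    rw [← h1, sub_eq_zero]
    exact Finset.sum_congr rfl (fun x _ => by rw [hInxt])
  rw [Fintype.sum_sum_type, Fintype.sum_prod_type] at h0
  have h2 : ∑ j : Fin D.m, I (Sum.inr j) * (f (nxt ho v (Sum.inr j)) - f (Sum.inr j)) = 0 :=
    Finset.sum_eq_zero (fun j _ => by rw [nxt_inr, sub_self, mul_zero])
  rw [h2, add_zero] at h0
  have hout : ∀ x : Fin D.n × Fin 4, o x = true →
      I (Sum.inl x) * (f (nxt ho v (Sum.inl x)) - f (Sum.inl x)) = 0 := by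
    intro x hx
    rw [nxt_inl, if_pos hx, f_mate v G f hf, sub_self, mul_zero]
  have hpa : ∀ c ∈ G, I (Sum.inl (pa o c)) * (f (nxt ho v (Sum.inl (pa o c))) -
      f (Sum.inl (pa o c))) =
      I (Sum.inl (pa o c)) * (f (Sum.inl (pb o c)) - f (Sum.inl (pa o c))) := by
    intro c hc
    rw [nxt_inl, if_neg (by rw [o_pa ho]; decide), f_pa v G f hf hc]
  have hpb : ∀ c ∈ G, I (Sum.inl (pb o c)) * (f (nxt ho v (Sum.inl (pb o c))) -
      f (Sum.inl (pb o c))) =
      I (Sum.inl (pb o c)) * (f (Sum.inl (pa o c)) - f (Sum.inl (pb o c))) := by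
    intro c hc
    rw [nxt_inl, if_neg (by rw [o_pb ho]; decide), f_pb v G f hf hc]
  have hrow : ∀ i : Fin D.n, ∑ a : Fin 4, I (Sum.inl (i, a)) *
      (f (nxt ho v (Sum.inl (i, a))) - f (Sum.inl (i, a))) =
      if i ∈ G then (f (Sum.inl (pb o i)) - f (Sum.inl (pa o i))) *
        (I (Sum.inl (pa o i)) - I (Sum.inl (pb o i))) else 0 := by
    intro i
    by_cases hi : i ∈ G
    · rw [if_pos hi]
      have e1 := hpa i hi
      have e2 := hpb i hi
      obtain ⟨h1, h2, h3⟩ := o_vals ho i
      rw [Fin.sum_univ_four]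
      cases h0 : o (i, 0)
      · rw [h0] at h1 h3
        have p1 : pa o i = (i, 0) := by simp [pa, h0]
        have p2 : pb o i = (i, 2) := by simp [pb, h0]
        rw [p1, p2] at e1 e2 ⊢
        rw [hout (i, 1) h1, hout (i, 3) h3, e1, e2]
        ring
      · rw [h0] at h2
        have p1 : pa o i = (i, 1) := by simp [pa, h0]
        have p2 : pb o i = (i, 3) := by simp [pb, h0]
        rw [p1, p2] at e1 e2 ⊢
        rw [hout (i, 0) h0, hout (i, 2) h2, e1, e2]
        ring
    · rw [if_neg hi]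
      refine Finset.sum_eq_zero (fun a _ => ?_)
      by_cases ha : o (i, a) = true
      · exact hout _ ha
      · rw [nxt_inl, if_neg ha, f_notin v G f hf hi, sub_self, mul_zero]
  rw [Finset.sum_congr rfl (fun i _ => hrow i), Finset.sum_ite_mem, Finset.univ_inter] at h0
  exact h0

end


theorem isCore (D : LinkDiagram) (o : Fin D.n × Fin 4 → Bool) (ho : D.Checker o)
    (t : Fin D.n → Bool) (rot : Bool) : (D.cube t rot).IsCore := by
  refine ⟨fun v => ⟨fun _ => rfl, fun h => Eq.symm h, fun h h' => Eq.trans h h'⟩, ?_, ?_⟩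
  · intro v c h h'
    have h0 : (Quot.mk (D.Step v) (Sum.inl (pa o c)) : Quot (D.Step v)) =
        Quot.mk (D.Step v) (Sum.inl (pb o c)) := by
      rcases near D o t rot c v with ⟨h1, h2⟩ | ⟨h1, h2⟩
      · exact (h1.symm.trans h).trans h2
      · exact ((h1.symm.trans h).trans h2).symm
    refine core_split ho v c h0 ?_
    rcases near D o t rot c (v ∆ {c}) with ⟨h1, h2⟩ | ⟨h1, h2⟩
    · exact (h1.symm.trans h').trans h2
    · exact ((h1.symm.trans h').trans h2).symm
  · intro v c h x y
    have h0 : ¬ (Quot.mk (D.Step v) (Sum.inl (pa o c)) : Quot (D.Step v)) =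
        Quot.mk (D.Step v) (Sum.inl (pb o c)) := by
      intro h'
      rcases near D o t rot c v with ⟨h1, h2⟩ | ⟨h1, h2⟩
      · exact h ((h1.trans h').trans h2.symm)
      · exact h ((h1.trans h'.symm).trans h2.symm)
    have hm := core_merge ho v c h0 x y
    rcases near D o t rot c v with ⟨h1, h2⟩ | ⟨h1, h2⟩
    · have h1' : (Quot.mk (D.Step v) ((D.cube t rot).tail c) : Quot (D.Step v)) =
        Quot.mk (D.Step v) (Sum.inl (pa o c)) := h1
      have h2' : (Quot.mk (D.Step v) ((D.cube t rot).head c) : Quot (D.Step v)) =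
        Quot.mk (D.Step v) (Sum.inl (pb o c)) := h2
      rw [← h1', ← h2'] at hm
      exact hm
    · have h1' : (Quot.mk (D.Step v) ((D.cube t rot).tail c) : Quot (D.Step v)) =
        Quot.mk (D.Step v) (Sum.inl (pb o c)) := h1
      have h2' : (Quot.mk (D.Step v) ((D.cube t rot).head c) : Quot (D.Step v)) =
        Quot.mk (D.Step v) (Sum.inl (pa o c)) := h2
      rw [← h1', ← h2'] at hm
      exact hm.trans (or_congr Iff.rfl or_comm)

theorem tele (D : LinkDiagram) (o : Fin D.n × Fin 4 → Bool) (ho : D.Checker o)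
    (t : Fin D.n → Bool) (rot : Bool) : (D.cube t rot).Tele (D.eta o rot) := by
  classical
  intro v G f hf z
  refine Eq.trans (Finset.sum_congr rfl (fun c hc => ?_)) (tele_core ho v G f hf z)
  have hs : ∀ x : D.Point, (if (D.cube t rot).same v x z then (1 : ℤ) else 0) =
      if (Quot.mk (D.Step v) x : Quot (D.Step v)) = Quot.mk (D.Step v) z then (1 : ℤ) else 0 :=
    fun x => if_congr Iff.rfl rfl rfl
  rcases ends D o t rot c with ⟨he, ⟨h1, h2⟩ | ⟨h1, h2⟩⟩ | ⟨he, h⟩
  · rw [h1, h2, if_pos he, one_mul, hs, hs]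
  · rw [h1, h2, if_pos he, one_mul, hs, hs]
    ring
  · rw [if_neg (by rw [he]; decide)]
    rcases h v with ⟨h1, h2⟩ | ⟨h1, h2⟩
    · rw [h1, h2, f_pa v G f hf hc, f_pb v G f hf hc, hs, hs, ← q_sm, ← q_sm]
      ring
    · rw [h1, h2, f_pa v G f hf hc, f_pb v G f hf hc, hs, hs, ← q_sm, ← q_sm]
      ring

end P2
end Pool.Agent.helper20.Sz
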